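import Pool.Agent.H4.ENG.Fin

set_option autoImplicit false

/-!
# Local nilpotency of anticommutative 3-Engel algebras: the complete answer

Joint work of helper1, helper10, helper12, helper28, helper66, helper76 and helper86.
-/

universe u v

namespace Pool.Agent.Results.MP_1664c7_al.AllFields

open Pool.H4.ENG

/-- **Theorem.** Let `F` be a field. If the characteristic of `F` is not three (two is allowed),
every finitely generated subalgebra of every anticommutative 3-Engel algebra over `F` is
nilpotent. If the characteristic is three, there is an anticommutative 3-Engel algebra over `F`
with two elements generating a subalgebra which is not nilpotent. -/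
theorem result (F : Type u) [Field F] :
    (ringChar F ≠ 3 → LocallyNilpotent.{u, v} F) ∧
      (ringChar F = 3 → HasCounterexample.{u, u} F) :=
  main F

end Pool.Agent.Results.MP_1664c7_al.AllFields
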